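import Pool.Agent.H97.WIter

/-!
# MP_17b696_nt: algebra of `w`
-/

set_option autoImplicit false

namespace Pool.Agent.H52.WG

open Finset
open Pool.Agent.H97.WIter

theorem gf_mul {m n : ℕ} (h : Nat.Coprime m n) : gf (m * n) = gf m + gf n := by
  unfold gf
  rw [h.primeFactors_mul, Finset.sum_union h.disjoint_primeFactors]
  congr 1
  · refine Finset.sum_congr rfl fun p hp => ?_
    rw [Nat.factorization_eq_of_coprime_left h (by simpa using hp)]
  · refine Finset.sum_congr rfl fun p hp => ?_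
    rw [Nat.factorization_eq_of_coprime_right h (by simpa using hp)]

theorem wf_mul {m n : ℕ} (h : Nat.Coprime m n) : wf (m * n) = wf m * n + m * wf n := by
  have h1 : (wf (m * n) : ℚ) = wf m * n + m * wf n := by
    rw [wf_cast, wf_cast, wf_cast, gf_mul h]
    push_cast
    ring
  exact_mod_cast h1

theorem gf_prime {q : ℕ} (hq : q.Prime) : gf q = 1 / q := by
  unfold gf
  rw [hq.primeFactors, Finset.sum_singleton, hq.factorization_self, pow_one]

theorem wf_prime {q : ℕ} (hq : q.Prime) : wf q = 1 := by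
  have h0 : (q : ℚ) ≠ 0 := by exact_mod_cast hq.ne_zero
  have h1 : (wf q : ℚ) = 1 := by
    rw [wf_cast, gf_prime hq]
    field_simp
  exact_mod_cast h1

/-- `w (m q) = w (m) q + m` for a prime `q` not dividing `m` -/
theorem wf_mul_prime {m q : ℕ} (hq : q.Prime) (h : Nat.Coprime m q) :
    wf (m * q) = wf m * q + m := by
  rw [wf_mul h, wf_prime hq, mul_one]

/-- lower bound by a set of primes exactly dividing `m` -/
theorem le_gf {m : ℕ} (S : Finset ℕ) (hS : ∀ p ∈ S, p.Prime) (h1 : ∀ p ∈ S, p ∣ m)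
    (h2 : ∀ p ∈ S, ¬ p ^ 2 ∣ m) (hm : m ≠ 0) : ∑ p ∈ S, 1 / (p : ℚ) ≤ gf m := by
  have hsub : S ⊆ m.primeFactors := fun p hp => Nat.mem_primeFactors.2 ⟨hS p hp, h1 p hp, hm⟩
  calc ∑ p ∈ S, 1 / (p : ℚ) = ∑ p ∈ S, 1 / (p : ℚ) ^ (m.factorization p) := by
        refine Finset.sum_congr rfl fun p hp => ?_
        have a1 : 1 ≤ m.factorization p := (hS p hp).factorization_pos_of_dvd hm (h1 p hp)
        have a2 : m.factorization p < 2 := by
          by_contra hcon
          push Not at hcon
          exact h2 p hp (((hS p hp).pow_dvd_iff_le_factorization hm).2 hcon)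
        rw [show m.factorization p = 1 by omega, pow_one]
    _ ≤ gf m := Finset.sum_le_sum_of_subset_of_nonneg hsub fun p _ _ => by positivity

theorem lt_wf {m M : ℕ} (S : Finset ℕ) (hS : ∀ p ∈ S, p.Prime) (h1 : ∀ p ∈ S, p ∣ m)
    (h2 : ∀ p ∈ S, ¬ p ^ 2 ∣ m) (hm : m ≠ 0) (hM : (M : ℚ) < ∑ p ∈ S, 1 / (p : ℚ)) :
    M * m < wf m := by
  have h3 := le_gf S hS h1 h2 hm
  have hm0 : (0 : ℚ) < m := by exact_mod_cast Nat.pos_of_ne_zero hm
  have h4 : (M : ℚ) * m < wf m := by
    rw [wf_cast]
    nlinarith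
  exact_mod_cast h4

/-- primes outside a finite set with large sum of reciprocals -/
theorem exists_primes (T : Finset ℕ) (M : ℕ) : ∃ S : Finset ℕ, (∀ p ∈ S, p.Prime) ∧
    Disjoint S T ∧ (M : ℚ) < ∑ p ∈ S, 1 / (p : ℚ) := by
  classical
  by_contra hcon
  push Not at hcon
  have key : Summable (Set.indicator {p : ℕ | p.Prime} (fun n : ℕ => (1 : ℝ) / n)) := by
    refine summable_of_sum_le (c := (M : ℝ) + ∑ p ∈ T, (1 : ℝ) / p) ?_ ?_
    · intro n
      by_cases hn : n ∈ {p : ℕ | p.Prime}
      · rw [Set.indicator_of_mem hn]; positivity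
      · rw [Set.indicator_of_notMem hn]; exact le_refl _
    · intro u
      have h1 := hcon ((u.filter (fun p => p.Prime)) \ T)
        (fun p hp => (Finset.mem_filter.1 (Finset.mem_sdiff.1 hp).1).2) Finset.sdiff_disjoint
      have h2 : ∑ p ∈ (u.filter (fun p => p.Prime)) \ T, (1 : ℝ) / p ≤ M := by
        have : ((∑ p ∈ (u.filter (fun p => p.Prime)) \ T, 1 / (p : ℚ) : ℚ) : ℝ) ≤ ((M : ℚ) : ℝ) := by
          exact_mod_cast h1
        push_cast at this
        exact this
      calc ∑ n ∈ u, Set.indicator {p : ℕ | p.Prime} (fun n : ℕ => (1 : ℝ) / n) n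
          = ∑ n ∈ u.filter (fun p => p.Prime), (1 : ℝ) / n := by
            rw [Finset.sum_filter]
            refine Finset.sum_congr rfl fun n _ => ?_
            by_cases hn : n.Prime
            · rw [if_pos hn, Set.indicator_of_mem (by exact hn)]
            · rw [if_neg hn, Set.indicator_of_notMem (by exact hn)]
        _ ≤ ∑ n ∈ ((u.filter (fun p => p.Prime)) \ T) ∪ T, (1 : ℝ) / n := by
            refine Finset.sum_le_sum_of_subset_of_nonneg ?_ fun i _ _ => by positivity
            intro x hx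
            rw [Finset.mem_union, Finset.mem_sdiff]
            by_cases hxT : x ∈ T
            · exact Or.inr hxT
            · exact Or.inl ⟨hx, hxT⟩
        _ = ∑ n ∈ (u.filter (fun p => p.Prime)) \ T, (1 : ℝ) / n + ∑ n ∈ T, (1 : ℝ) / n :=
            Finset.sum_union Finset.sdiff_disjoint
        _ ≤ M + ∑ p ∈ T, (1 : ℝ) / p := by linarith
  exact not_summable_one_div_on_primes key

end Pool.Agent.H52.WG
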