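import Pool.Agent.H91.EHA.SwK1

/-!
# MP_17b696_nt: primes in a residue class, lower bound
-/

set_option autoImplicit false

namespace Pool.Agent.H52.WG

open Finset Filter
open Pool.Agent.H91.EHA

/-- the sum of `log q` over the primes `q ≤ y`, `q ≡ a mod c` -/
noncomputable def thA (y c a : ℕ) : ℝ :=
  ∑ q ∈ (Icc 1 y).filter (fun q => q.Prime ∧ q ≡ a [MOD c]), Real.log q

theorem psiA_le (y c a : ℕ) (hy : 1 ≤ y) :
    psiA y c a ≤ thA y c a + 2 * Real.sqrt y * Real.log y := by
  have h1 : psiA y c a ≤ thA y c a + ∑ n ∈ (Icc 1 y).filter (fun n => ¬ n.Prime), Lam n := by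
    unfold psiA thA
    rw [← Finset.sum_filter_add_sum_filter_not ((Icc 1 y).filter (fun n => n ≡ a [MOD c]))
      (fun n => n.Prime)]
    apply add_le_add
    · rw [Finset.filter_filter]
      apply le_of_eq
      rw [show ((Icc 1 y).filter fun n => n ≡ a [MOD c] ∧ n.Prime) =
        (Icc 1 y).filter (fun q => q.Prime ∧ q ≡ a [MOD c]) by
          ext x; simp only [Finset.mem_filter]; tauto]
      refine Finset.sum_congr rfl fun n hn => ?_
      exact ArithmeticFunction.vonMangoldt_apply_prime (Finset.mem_filter.1 hn).2.1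
    · refine Finset.sum_le_sum_of_subset_of_nonneg ?_ fun i _ _ =>
        ArithmeticFunction.vonMangoldt_nonneg
      intro x hx
      simp only [Finset.mem_filter] at hx ⊢
      exact ⟨hx.1.1, hx.2⟩
  have h2 := Chebyshev.psi_sub_theta_eq_sum_not_prime (y : ℝ)
  have h3 := Chebyshev.psi_sub_theta_le (x := (y : ℝ)) (by exact_mod_cast hy)
  rw [Nat.floor_natCast] at h2
  have h4 : ∑ n ∈ (Icc 1 y).filter (fun n => ¬ n.Prime), Lam n =
      Chebyshev.psi (y : ℝ) - Chebyshev.theta y := by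
    rw [h2]
    rfl
  linarith

theorem thA_lower (c : ℕ) (hc : 1 ≤ c) : ∃ y0 : ℕ, ∀ y : ℕ, y0 ≤ y → ∀ a : ℕ, Nat.Coprime a c →
    y / (2 * c : ℝ) ≤ thA y c a := by
  obtain ⟨x0, hx0⟩ := psi_ap 1 1
  have hlog : Tendsto (fun n : ℕ => Real.log n) atTop atTop :=
    Real.tendsto_log_atTop.comp tendsto_natCast_atTop_atTop
  have e1 := hlog.eventually_ge_atTop (max (c : ℝ) (4 * c))
  have e2 : ∀ᶠ n : ℕ in atTop, 2 * Real.sqrt n * Real.log n ≤ (1 / (4 * c : ℝ)) * n := by
    have h3 : Tendsto (fun x : ℝ => (Real.log x / x ^ (1 / 2 : ℝ))) atTop (nhds 0) :=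
      (isLittleO_log_rpow_atTop (show (0 : ℝ) < 1 / 2 by norm_num)).tendsto_div_nhds_zero
    have h4 := h3.comp (tendsto_natCast_atTop_atTop (R := ℝ))
    have hc0 : (0 : ℝ) < c := by exact_mod_cast hc
    have h5 := h4.eventually_lt_const (show (0 : ℝ) < 1 / (8 * c) by positivity)
    filter_upwards [h5, eventually_ge_atTop 1] with n hn hn1
    have hn0 : (0 : ℝ) < n := by exact_mod_cast hn1
    simp only [Function.comp_apply] at hn
    rw [← Real.sqrt_eq_rpow] at hn
    have hs : 0 < Real.sqrt n := Real.sqrt_pos.2 hn0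
    rw [div_lt_iff₀ hs] at hn
    have hss : Real.sqrt n * Real.sqrt n = n := Real.mul_self_sqrt hn0.le
    calc 2 * Real.sqrt n * Real.log n ≤ 2 * Real.sqrt n * (1 / (8 * c) * Real.sqrt n) := by
          gcongr
      _ = (1 / (4 * c : ℝ)) * (Real.sqrt n * Real.sqrt n) := by ring
      _ = _ := by rw [hss]
  obtain ⟨y0, hy0⟩ := eventually_atTop.1 (e1.and e2)
  refine ⟨max (max x0 y0) 1, fun y hy a ha => ?_⟩
  have hyx : x0 ≤ y := le_trans (le_trans (le_max_left _ _) (le_max_left _ _)) hy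
  have hyy : y0 ≤ y := le_trans (le_trans (le_max_right _ _) (le_max_left _ _)) hy
  have hy1 : 1 ≤ y := le_trans (le_max_right _ _) hy
  obtain ⟨g1, g2⟩ := hy0 y hyy
  have hc0 : (0 : ℝ) < c := by exact_mod_cast hc
  have hy0' : (0 : ℝ) < y := by exact_mod_cast hy1
  have h1 := hx0 y hyx y le_rfl c hc (by rw [pow_one]; exact le_trans (le_max_left _ _) g1) a ha
  rw [pow_one] at h1
  have h2 := (abs_le.1 h1).1
  have h3 := psiA_le y c a hy1
  have h4 : (y : ℝ) / Real.log y ≤ y / (4 * c) :=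
    div_le_div_of_nonneg_left hy0'.le (by positivity) (le_trans (le_max_right _ _) g1)
  have hφ : 0 < c.totient := Nat.totient_pos.mpr hc
  have h5 : (y : ℝ) / c ≤ y / (c.totient : ℝ) :=
    div_le_div_of_nonneg_left hy0'.le (by exact_mod_cast hφ)
      (by exact_mod_cast Nat.totient_le c)
  have h6 : (y : ℝ) / c - y / (4 * c) - 1 / (4 * c) * y = y / (2 * c) := by
    field_simp
    ring
  linarith

end Pool.Agent.H52.WG
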