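import Pool.Agent.H52.WG.Alg

/-!
# MP_17b696_nt: the local construction
-/

set_option autoImplicit false

namespace Pool.Agent.H52.WG

open Finset
open Pool.Agent.H97.WIter

theorem exists_rho (B : Finset ℕ) (hB : ∀ p ∈ B, p.Prime) (h2 : 2 ∉ B) (W m : ℕ)
    (hm : ∀ p ∈ B, ¬ p ∣ m) :
    ∃ ρ, ρ < ∏ p ∈ B, p ∧ Nat.Coprime ρ (∏ p ∈ B, p) ∧ ∀ p ∈ B, ¬ p ∣ W * ρ + m := by
  classical
  have hp3 : ∀ p ∈ B, 3 ≤ p := by
    intro p hp
    have h1 := (hB p hp).two_le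
    rcases Nat.lt_or_ge p 3 with h | h
    · exact absurd (by omega : p = 2) (by rintro rfl; exact h2 hp)
    · exact h
  have hex : ∀ p ∈ B, ∃ e : ℕ, (e = 1 ∨ e = 2) ∧ ¬ p ∣ W * e + m := by
    intro p hp
    by_contra hcon
    push Not at hcon
    have h1 := hcon 1 (Or.inl rfl)
    have h3 := hcon 2 (Or.inr rfl)
    have h4 : p ∣ (W * 1 + m) * 2 - (W * 2 + m) := by
      exact Nat.dvd_sub (Dvd.dvd.mul_right h1 2) h3
    rw [show (W * 1 + m) * 2 - (W * 2 + m) = m by omega] at h4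
    exact hm p hp h4
  choose! e he hne using hex
  have hs : ∀ p ∈ B, p ≠ 0 := fun p hp => (hB p hp).ne_zero
  have hpw : Set.Pairwise (B : Set ℕ) (Function.onFun Nat.Coprime (fun p : ℕ => p)) := by
    intro p hp q hq hpq
    exact (Nat.coprime_primes (hB p hp) (hB q hq)).2 hpq
  obtain ⟨k, hk⟩ := Nat.chineseRemainderOfFinset e (fun p : ℕ => p) B hs hpw
  have hP : 0 < ∏ p ∈ B, p := Finset.prod_pos fun p hp => (hB p hp).pos
  refine ⟨k % ∏ p ∈ B, p, Nat.mod_lt _ hP, ?_, ?_⟩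
  · apply Nat.Coprime.symm
    apply Nat.Coprime.prod_left
    intro p hp
    rw [Nat.Prime.coprime_iff_not_dvd (hB p hp)]
    intro hd
    have h1 : k % (∏ p ∈ B, p) ≡ e p [MOD p] :=
      ((Nat.mod_modEq k _).of_dvd (Finset.dvd_prod_of_mem _ hp)).trans (hk p hp)
    have h3 : p ∣ e p := (h1.dvd_iff dvd_rfl).1 hd
    have h4 := hp3 p hp
    rcases he p hp with h | h <;> rw [h] at h3 <;> have := Nat.le_of_dvd (by norm_num) h3 <;> omega
  · intro p hp hd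
    have h1 : k % (∏ p ∈ B, p) ≡ e p [MOD p] :=
      ((Nat.mod_modEq k _).of_dvd (Finset.dvd_prod_of_mem _ hp)).trans (hk p hp)
    have h3 : W * (k % (∏ p ∈ B, p)) + m ≡ W * e p + m [MOD p] :=
      (h1.mul_left W).add_right m
    exact hne p hp ((h3.dvd_iff dvd_rfl).1 hd)

theorem exists_c (b W m : ℕ) (hb : 1 ≤ b) (hW : Nat.Coprime W b) (hm : Nat.Coprime m b) :
    ∃ c, Nat.Coprime c (b ^ 2) ∧ W * c + m ≡ b [MOD b ^ 2] := by
  have hb2 : 0 < b ^ 2 := by positivity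
  obtain ⟨c, -, hc⟩ := Nat.exists_mul_mod_eq_of_coprime (n := W) (k := b ^ 2)
    (b + m * (b ^ 2 - 1)) (Nat.Coprime.pow_right 2 hW) hb2.ne'
  have h1 : W * c + m ≡ b [MOD b ^ 2] := by
    have h2 : W * c ≡ b + m * (b ^ 2 - 1) [MOD b ^ 2] := hc
    have h3 := h2.add_right m
    have h4 : b + m * (b ^ 2 - 1) + m = b + m * b ^ 2 := by
      obtain ⟨t, ht⟩ : ∃ t, b ^ 2 = t + 1 := ⟨b ^ 2 - 1, by omega⟩
      rw [ht, Nat.add_sub_cancel]
      ring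
    rw [h4] at h3
    refine h3.trans ?_
    have h5 : b + m * b ^ 2 ≡ b + 0 [MOD b ^ 2] :=
      Nat.ModEq.add_left b (by
        rw [Nat.modEq_zero_iff_dvd]
        exact Dvd.intro_left m rfl)
    simpa using h5
  refine ⟨c, ?_, h1⟩
  apply Nat.Coprime.pow_right
  apply Nat.coprime_of_dvd
  intro p hp hpc hpb
  have h2 : W * c + m ≡ b [MOD p] := h1.of_dvd (dvd_pow hpb two_ne_zero)
  have h3 : p ∣ W * c + m := (h2.dvd_iff dvd_rfl).2 hpb
  have h4 : p ∣ m := (Nat.dvd_add_right (Dvd.dvd.mul_left hpc W)).1 h3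
  have h5 := Nat.dvd_gcd h4 hpb
  rw [hm] at h5
  exact hp.one_lt.ne' (Nat.dvd_one.1 h5)

theorem squarefree_prod (B : Finset ℕ) (hB : ∀ p ∈ B, p.Prime) {p : ℕ} (hp : p ∈ B) :
    ¬ p ^ 2 ∣ ∏ q ∈ B, q := by
  intro hd
  rw [← Finset.mul_prod_erase B (fun q => q) hp, pow_two] at hd
  have h1 : p ∣ ∏ q ∈ B.erase p, q := Nat.dvd_of_mul_dvd_mul_left (hB p hp).pos hd
  obtain ⟨q, hq, hpq⟩ := (Prime.dvd_finset_prod_iff (hB p hp).prime (fun q => q)).1 h1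
  rw [Finset.mem_erase] at hq
  exact hq.1 ((Nat.prime_dvd_prime_iff_eq (hB p hp) (hB q hq.2)).1 hpq).symm

/-- the numbers constructed are good -/
theorem good (A B : Finset ℕ) (M : ℕ) (hA : ∀ p ∈ A, p.Prime) (hB : ∀ p ∈ B, p.Prime)
    (hAM : (M : ℚ) < ∑ p ∈ A, 1 / (p : ℚ)) (hBM : (M : ℚ) < ∑ p ∈ B, 1 / (p : ℚ))
    {k q : ℕ} (hk : 0 < k) (hka : Nat.Coprime (∏ p ∈ A, p) k) (hq : q.Prime)
    (hqm : (∏ p ∈ A, p) * k < q)
    (hc : wf ((∏ p ∈ A, p) * k) * q + (∏ p ∈ A, p) * k ≡ ∏ p ∈ B, p [MOD (∏ p ∈ B, p) ^ 2]) :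
    M * ((∏ p ∈ A, p) * k * q) < wf ((∏ p ∈ A, p) * k * q) ∧
    M * wf ((∏ p ∈ A, p) * k * q) < wf (wf ((∏ p ∈ A, p) * k * q)) := by
  set a := ∏ p ∈ A, p with ha
  set b := ∏ p ∈ B, p with hb
  have ha0 : 0 < a := Finset.prod_pos fun p hp => (hA p hp).pos
  have hak0 : 0 < a * k := Nat.mul_pos ha0 hk
  have hcop : Nat.Coprime (a * k) q := by
    rw [Nat.coprime_comm, Nat.Prime.coprime_iff_not_dvd hq]
    intro hd
    have := Nat.le_of_dvd hak0 hd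
    omega
  have hn0 : a * k * q ≠ 0 := (Nat.mul_pos hak0 hq.pos).ne'
  have h1 : M * (a * k * q) < wf (a * k * q) := by
    refine lt_wf A hA (fun p hp => ?_) (fun p hp hd => ?_) hn0 hAM
    · exact Dvd.dvd.mul_right (Dvd.dvd.mul_right (Finset.dvd_prod_of_mem _ hp) _) _
    · rw [mul_assoc] at hd
      have hcp : Nat.Coprime (p ^ 2) (k * q) := by
        apply Nat.Coprime.pow_left
        apply Nat.Coprime.mul_right
        · exact Nat.Coprime.coprime_dvd_left (Finset.dvd_prod_of_mem _ hp) hka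
        · exact Nat.Coprime.coprime_dvd_left
            (Dvd.dvd.mul_right (Finset.dvd_prod_of_mem _ hp) _) hcop
      exact squarefree_prod A hA hp (hcp.dvd_of_dvd_mul_right hd)
  refine ⟨h1, ?_⟩
  have h2 : wf (a * k * q) = wf (a * k) * q + a * k := wf_mul_prime hq hcop
  have h3 : wf (a * k * q) ≡ b [MOD b ^ 2] := by rw [h2]; exact hc
  have hw0 : wf (a * k * q) ≠ 0 := by omega
  refine lt_wf B hB (fun p hp => ?_) (fun p hp hd => ?_) hw0 hBM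
  · have hpb : p ∣ b := Finset.dvd_prod_of_mem _ hp
    exact ((h3.of_dvd (dvd_pow hpb two_ne_zero)).dvd_iff dvd_rfl).2 hpb
  · have hpb : p ^ 2 ∣ b ^ 2 := pow_dvd_pow_of_dvd (Finset.dvd_prod_of_mem _ hp) 2
    exact squarefree_prod B hB hp (((h3.of_dvd hpb).dvd_iff dvd_rfl).1 hd)

end Pool.Agent.H52.WG
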