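import Pool.Agent.H52.WG.Loc
import Pool.Agent.H52.WG.Cnt

/-!
# MP_17b696_nt: two consecutive steps of `w` can both grow by any factor

`grow`: for every `M`, a positive proportion of `n` has `w n > M n` and `w (w n) > M w n`.
-/

set_option autoImplicit false

namespace Pool.Agent.H52.WG

open Finset Filter
open Pool.Agent.H97.WIter

/-- the data for one `k` -/
theorem exists_rc (a b P : ℕ) (B : Finset ℕ) (hB : ∀ p ∈ B, p.Prime) (h2 : 2 ∉ B)
    (hb : b = ∏ p ∈ B, p) (R : ℕ → ℕ) (hR : ∀ ρ, (R ρ).Prime ∧ a * b < R ρ ∧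
      (Nat.Coprime ρ b → R ρ ≡ ρ [MOD b])) (hab : Nat.Coprime a b) (ha : 0 < a)
    (hP : P = ∏ r ∈ (range b).image R, r) (j : ℕ) :
    ∃ r c, r.Prime ∧ r ≤ P ∧ r ∣ P ∧ a < r ∧ Nat.Coprime (1 + a * b * P * j) r ∧
      Nat.Coprime c (b ^ 2) ∧
      wf (a * ((1 + a * b * P * j) * r)) * c + a * ((1 + a * b * P * j) * r) ≡ b [MOD b ^ 2] := by
  set k := 1 + a * b * P * j with hk
  have hb0 : 0 < b := by rw [hb]; exact Finset.prod_pos fun p hp => (hB p hp).pos
  have hkD : Nat.Coprime k (a * b * P) := by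
    rw [hk, Nat.coprime_comm]
    simp
  have hka : Nat.Coprime k a := Nat.Coprime.coprime_dvd_right ⟨b * P, by ring⟩ hkD
  have hkb : Nat.Coprime k b := Nat.Coprime.coprime_dvd_right ⟨a * P, by ring⟩ hkD
  have hkP : Nat.Coprime k P := Nat.Coprime.coprime_dvd_right ⟨a * b, by ring⟩ hkD
  have hP0 : 0 < P := by
    rw [hP]
    refine Finset.prod_pos fun r hr => ?_
    obtain ⟨ρ, -, rfl⟩ := Finset.mem_image.1 hr
    exact (hR ρ).1.pos
  obtain ⟨ρ, hρ, hρb, hρp⟩ := exists_rho B hB h2 (wf (a * k)) (a * k) (by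
    intro p hp hd
    have hpb : p ∣ b := by rw [hb]; exact Finset.dvd_prod_of_mem _ hp
    have h1 : Nat.Coprime (a * k) b := Nat.Coprime.mul_left hab hkb
    have h3 := Nat.dvd_gcd hd hpb
    rw [h1] at h3
    exact (hB p hp).one_lt.ne' (Nat.dvd_one.1 h3))
  rw [← hb] at hρ hρb
  have hmem : R ρ ∈ (range b).image R := Finset.mem_image_of_mem R (Finset.mem_range.2 hρ)
  have hrP : R ρ ∣ P := by rw [hP]; exact Finset.dvd_prod_of_mem (fun r => r) hmem
  have hrp := (hR ρ).1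
  have hrlt := (hR ρ).2.1
  have hra : a < R ρ := lt_of_le_of_lt (Nat.le_mul_of_pos_right a hb0) hrlt
  have hrb : b < R ρ := lt_of_le_of_lt (Nat.le_mul_of_pos_left b ha) hrlt
  have hkr : Nat.Coprime k (R ρ) := Nat.Coprime.coprime_dvd_right hrP hkP
  have har : Nat.Coprime a (R ρ) := by
    rw [Nat.coprime_comm, Nat.Prime.coprime_iff_not_dvd hrp]
    intro hd
    have := Nat.le_of_dvd ha hd
    omega
  have hbr : Nat.Coprime (R ρ) b := by
    rw [Nat.Prime.coprime_iff_not_dvd hrp]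
    intro hd
    have := Nat.le_of_dvd hb0 hd
    omega
  have hakr : Nat.Coprime (a * k) (R ρ) := Nat.Coprime.mul_left har hkr
  have hw : wf (a * (k * R ρ)) = wf (a * k) * R ρ + a * k := by
    rw [← mul_assoc]
    exact wf_mul_prime hrp hakr
  have hWb : Nat.Coprime (wf (a * (k * R ρ))) b := by
    rw [hb]
    apply Nat.Coprime.prod_right
    intro p hp
    rw [Nat.coprime_comm, Nat.Prime.coprime_iff_not_dvd (hB p hp), hw]
    intro hd
    have hpb : p ∣ b := by rw [hb]; exact Finset.dvd_prod_of_mem _ hp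
    have h1 : wf (a * k) * R ρ + a * k ≡ wf (a * k) * ρ + a * k [MOD p] :=
      (((hR ρ).2.2 hρb).of_dvd hpb |>.mul_left _).add_right _
    exact hρp p hp ((h1.dvd_iff dvd_rfl).1 hd)
  have hmb : Nat.Coprime (a * (k * R ρ)) b :=
    Nat.Coprime.mul_left hab (Nat.Coprime.mul_left hkb hbr)
  obtain ⟨c, hc1, hc2⟩ := exists_c b _ _ hb0 hWb hmb
  exact ⟨R ρ, c, hrp, Nat.le_of_dvd hP0 hrP, hrP, hra, hkr, hc1, hc2⟩

/-- the count for one `k` -/
theorem card_lower (b2 c y Z N : ℕ) (hy : y ≤ N) :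
    thA y b2 c ≤ (((Icc 1 y).filter (fun q => q.Prime ∧ q ≡ c [MOD b2] ∧ Z < q)).card : ℝ) *
      Real.log N + (Z : ℝ) ^ 2 := by
  unfold thA
  rw [← Finset.sum_filter_add_sum_filter_not
    ((Icc 1 y).filter (fun q => q.Prime ∧ q ≡ c [MOD b2])) (fun q => Z < q)]
  apply add_le_add
  · rw [Finset.filter_filter, show ((Icc 1 y).filter fun q => (q.Prime ∧ q ≡ c [MOD b2]) ∧ Z < q) =
      (Icc 1 y).filter (fun q => q.Prime ∧ q ≡ c [MOD b2] ∧ Z < q) by
        ext x; simp only [Finset.mem_filter]; tauto, ← nsmul_eq_mul]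
    apply Finset.sum_le_card_nsmul
    intro q hq
    rw [Finset.mem_filter, Finset.mem_Icc] at hq
    exact Real.log_le_log (by exact_mod_cast hq.1.1) (by exact_mod_cast hq.1.2.trans hy)
  · have h1 : ∑ q ∈ ((Icc 1 y).filter (fun q => q.Prime ∧ q ≡ c [MOD b2])).filter
        (fun q => ¬ Z < q), Real.log q ≤ ∑ q ∈ Icc 1 Z, (Z : ℝ) := by
      refine (Finset.sum_le_sum_of_subset_of_nonneg (t := Icc 1 Z) ?_ ?_).trans
        (Finset.sum_le_sum ?_)
      · intro q hq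
        simp only [Finset.mem_filter, Finset.mem_Icc] at hq ⊢
        exact ⟨hq.1.1.1, by omega⟩
      · intro i _ _
        exact Real.log_natCast_nonneg i
      · intro q hq
        rw [Finset.mem_Icc] at hq
        have h2 : (q : ℝ) ≤ Z := by exact_mod_cast hq.2
        exact (Real.log_le_self (Nat.cast_nonneg q)).trans h2
    rw [Finset.sum_const, Nat.card_Icc, nsmul_eq_mul] at h1
    simpa [pow_two] using h1

theorem grow (M : ℕ) : ∃ δ : ℝ, 0 < δ ∧ ∃ N0 : ℕ, ∀ N : ℕ, N0 ≤ N →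
    δ * N ≤ (((Icc 1 N).filter (fun n => M * n < wf n ∧ M * wf n < wf (wf n))).card : ℝ) := by
  classical
  obtain ⟨A, hA, -, hAM⟩ := exists_primes ∅ M
  obtain ⟨B, hB, hBd, hBM⟩ := exists_primes (A ∪ {2}) M
  obtain ⟨a, ha⟩ : ∃ a, a = ∏ p ∈ A, p := ⟨_, rfl⟩
  obtain ⟨b, hb⟩ : ∃ b, b = ∏ p ∈ B, p := ⟨_, rfl⟩
  have h2B : 2 ∉ B := fun h => (Finset.disjoint_left.1 hBd h) (by simp)
  have ha0 : 0 < a := by rw [ha]; exact Finset.prod_pos fun p hp => (hA p hp).pos
  have hb0 : 0 < b := by rw [hb]; exact Finset.prod_pos fun p hp => (hB p hp).pos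
  have hab : Nat.Coprime a b := by
    rw [ha, hb]
    apply Nat.Coprime.prod_left
    intro p hp
    apply Nat.Coprime.prod_right
    intro q hq
    rw [Nat.coprime_primes (hA p hp) (hB q hq)]
    rintro rfl
    exact (Finset.disjoint_left.1 hBd hq) (Finset.mem_union_left _ hp)
  have hRex : ∀ ρ : ℕ, ∃ r : ℕ, r.Prime ∧ a * b < r ∧ (Nat.Coprime ρ b → r ≡ ρ [MOD b]) := by
    intro ρ
    by_cases h : Nat.Coprime ρ b
    · obtain ⟨r, h1, h2, h3⟩ := Nat.forall_exists_prime_gt_and_modEq (a * b) hb0.ne' h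
      exact ⟨r, h2, h1, fun _ => h3⟩
    · obtain ⟨r, h1, h2⟩ := Nat.exists_infinite_primes (a * b + 1)
      exact ⟨r, h2, by omega, fun h' => absurd h' h⟩
  choose R hR using hRex
  obtain ⟨P, hP⟩ : ∃ P, P = ∏ r ∈ (range b).image R, r := ⟨_, rfl⟩
  have hP0 : 0 < P := by
    rw [hP]
    refine Finset.prod_pos fun r hr => ?_
    obtain ⟨ρ, -, rfl⟩ := Finset.mem_image.1 hr
    exact (hR ρ).1.pos
  obtain ⟨D, hD⟩ : ∃ D, D = a * b * P := ⟨_, rfl⟩
  have hD0 : 0 < D := by rw [hD]; positivity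
  have hrc := exists_rc a b P B hB h2B hb R hR hab ha0 hP
  rw [← hD] at hrc
  choose r c hr1 hr2 hr3 hr4 hr5 hc1 hc2 using hrc
  obtain ⟨G, hG⟩ : ∃ G, G = a * P := ⟨_, rfl⟩
  have hG0 : 0 < G := by rw [hG]; positivity
  obtain ⟨y0, hy0⟩ := thA_lower (b ^ 2) (Nat.one_le_pow 2 b hb0)
  obtain ⟨K0, hK0⟩ : ∃ K0, K0 = y0 + 8 * b ^ 2 * G ^ 3 + D ^ 2 + G + 2 := ⟨_, rfl⟩
  refine ⟨1 / (64 * b ^ 2 * G * D : ℝ), by positivity, K0 ^ 4, fun N hN => ?_⟩
  obtain ⟨K, hK⟩ : ∃ K, K = Nat.sqrt (Nat.sqrt N) := ⟨_, rfl⟩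
  have hKN : K ^ 4 ≤ N := by
    have h1 := Nat.sqrt_le' N
    have h2 := Nat.sqrt_le' (Nat.sqrt N)
    rw [← hK] at h2
    calc K ^ 4 = (K ^ 2) ^ 2 := by ring
      _ ≤ (Nat.sqrt N) ^ 2 := Nat.pow_le_pow_left h2 2
      _ ≤ N := h1
  have hNK : N < (K + 1) ^ 4 := by
    have h1 := Nat.lt_succ_sqrt' N
    have h2 := Nat.lt_succ_sqrt' (Nat.sqrt N)
    rw [← hK] at h2
    calc N < (Nat.sqrt N + 1) ^ 2 := h1
      _ ≤ ((K + 1) ^ 2) ^ 2 := Nat.pow_le_pow_left h2 2
      _ = (K + 1) ^ 4 := by ring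
  have hKK : K0 ≤ K := by
    by_contra hcon
    push Not at hcon
    have h1 : (K + 1) ^ 4 ≤ K0 ^ 4 := Nat.pow_le_pow_left hcon 4
    omega
  have hK1 : y0 ≤ K := by omega
  have hK2 : 8 * b ^ 2 * G ^ 3 ≤ K := by omega
  have hK3 : D ^ 2 ≤ K := by omega
  have hK4 : G ≤ K := by omega
  have hK5 : 2 ≤ K := by omega
  obtain ⟨J, hJ⟩ : ∃ J, J = K / D := ⟨_, rfl⟩
  have hN1 : 2 ≤ N := by
    calc 2 ≤ K := hK5
      _ ≤ K ^ 4 := Nat.le_self_pow (by norm_num) K
      _ ≤ N := hKN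
  obtain ⟨Z, hZ⟩ : ∃ Z, Z = G * K := ⟨_, rfl⟩
  have hZ0 : 0 < Z := by rw [hZ]; positivity
  obtain ⟨m, hm⟩ : ∃ m : ℕ → ℕ, m = fun j => a * ((1 + D * j) * r j) := ⟨_, rfl⟩
  have hm0 : ∀ j, 0 < m j := fun j => by
    rw [hm]
    have := (hr1 j).pos
    positivity
  have hmG : ∀ j, m j ≤ G * (D * (j + 1)) := fun j => by
    rw [hm, hG]
    calc a * ((1 + D * j) * r j) ≤ a * ((D * (j + 1)) * P) := by
          refine Nat.mul_le_mul_left a (Nat.mul_le_mul ?_ (hr2 j))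
          nlinarith
      _ = a * P * (D * (j + 1)) := by ring
  have hDj : ∀ j, j < J → D * (j + 1) ≤ K := fun j hj => by
    calc D * (j + 1) ≤ D * J := Nat.mul_le_mul_left D hj
      _ ≤ K := by rw [hJ]; exact Nat.mul_div_le K D
  have hmZ : ∀ j, j < J → m j ≤ Z := fun j hj => by
    rw [hZ]
    exact (hmG j).trans (Nat.mul_le_mul_left G (hDj j hj))
  obtain ⟨Q, hQ⟩ : ∃ Q : ℕ → Finset ℕ, Q = fun j => (Icc 1 (N / m j)).filter
    (fun q => q.Prime ∧ q ≡ c j [MOD b ^ 2] ∧ Z < q) := ⟨_, rfl⟩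
  -- injection
  have hinj : ∑ j ∈ range J, (Q j).card ≤
      ((Icc 1 N).filter (fun n => M * n < wf n ∧ M * wf n < wf (wf n))).card := by
    rw [← Finset.card_sigma]
    refine Finset.card_le_card_of_injOn (fun x => m x.1 * x.2) ?_ ?_
    · rintro ⟨j, q⟩ hx
      simp only [Finset.coe_sigma, Set.mem_sigma_iff, Finset.mem_coe, Finset.mem_range] at hx
      obtain ⟨hj, hq⟩ := hx
      rw [hQ] at hq
      simp only [Finset.mem_filter, Finset.mem_Icc] at hq
      obtain ⟨⟨hq1, hq2⟩, hqp, hqc, hqZ⟩ := hq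
      simp only [Finset.coe_filter, Finset.mem_Icc, Set.mem_ofPred_eq]
      have hle : m j * q ≤ N := by
        calc m j * q ≤ m j * (N / m j) := Nat.mul_le_mul_left _ hq2
          _ ≤ N := Nat.mul_div_le N _
      refine ⟨⟨Nat.mul_pos (hm0 j) hqp.pos, hle⟩, ?_⟩
      have hcong : wf (m j) * q + m j ≡ b [MOD b ^ 2] := by
        have h1 : wf (m j) * q + m j ≡ wf (m j) * c j + m j [MOD b ^ 2] :=
          (hqc.mul_left _).add_right _
        have h2 := hc2 j
        rw [hm] at h1 ⊢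
        exact h1.trans h2
      have hkr0 : 0 < (1 + D * j) * r j := by
        have := (hr1 j).pos
        positivity
      have hcop : Nat.Coprime a ((1 + D * j) * r j) := by
        apply Nat.Coprime.mul_right
        · have h1 : Nat.Coprime D (1 + D * j) := by simp
          exact Nat.Coprime.coprime_dvd_left ⟨b * P, by rw [hD]; ring⟩ h1
        · rw [Nat.coprime_comm, Nat.Prime.coprime_iff_not_dvd (hr1 j)]
          intro hd
          have := Nat.le_of_dvd ha0 hd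
          have := hr4 j
          omega
      have hmq : m j < q := lt_of_le_of_lt (hmZ j hj) hqZ
      have hg := good A B M hA hB hAM hBM (k := (1 + D * j) * r j) (q := q) hkr0
        (by rw [← ha]; exact hcop) hqp (by rw [← ha]; rw [hm] at hmq; exact hmq)
        (by rw [← ha, ← hb]; rw [hm] at hcong; exact hcong)
      rw [← ha] at hg
      rw [hm]
      exact hg
    · rintro ⟨j, q⟩ hx ⟨j', q'⟩ hx' heq
      simp only [Finset.coe_sigma, Set.mem_sigma_iff, Finset.mem_coe, Finset.mem_range] at hx hx'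
      obtain ⟨hj, hq⟩ := hx
      obtain ⟨hj', hq'⟩ := hx'
      rw [hQ] at hq hq'
      simp only [Finset.mem_filter, Finset.mem_Icc] at hq hq'
      obtain ⟨-, hqp, -, hqZ⟩ := hq
      obtain ⟨-, hqp', -, hqZ'⟩ := hq'
      simp only at heq
      have h1 : q ∣ m j' * q' := by rw [← heq]; exact Dvd.intro_left _ rfl
      have h2 : q = q' := by
        rcases (hqp.dvd_mul).1 h1 with h | h
        · have h3 := Nat.le_of_dvd (hm0 j') h
          have h4 := hmZ j' hj'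
          omega
        · exact (Nat.prime_dvd_prime_iff_eq hqp hqp').1 h
      subst h2
      have h3 : m j = m j' := Nat.eq_of_mul_eq_mul_right hqp.pos heq
      rw [hm] at h3
      simp only at h3
      have h4 : (1 + D * j) * r j = (1 + D * j') * r j' := Nat.eq_of_mul_eq_mul_left ha0 h3
      have h5 : r j ∣ (1 + D * j') * r j' := by rw [← h4]; exact Dvd.intro_left _ rfl
      have h6 : Nat.Coprime (r j) (1 + D * j') := by
        have h7 : Nat.Coprime D (1 + D * j') := by simp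
        refine Nat.Coprime.coprime_dvd_left ?_ h7
        rw [hD]
        exact Dvd.dvd.mul_left (hr3 j) _
      have h7 : r j = r j' :=
        (Nat.prime_dvd_prime_iff_eq (hr1 j) (hr1 j')).1 (h6.dvd_of_dvd_mul_left h5)
      rw [h7] at h4
      have h8 : 1 + D * j = 1 + D * j' := Nat.eq_of_mul_eq_mul_right (hr1 j').pos h4
      have h9 : j = j' := Nat.eq_of_mul_eq_mul_left hD0 (by omega)
      subst h9
      rfl
  -- lower bound for one j
  have hNR : (0 : ℝ) < N := by exact_mod_cast (by omega : 0 < N)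
  have hlogN : 0 < Real.log N := Real.log_pos (by exact_mod_cast (by omega : 1 < N))
  have hbR : (0 : ℝ) < b := by exact_mod_cast hb0
  have hGR : (0 : ℝ) < G := by exact_mod_cast hG0
  have hDR : (0 : ℝ) < D := by exact_mod_cast hD0
  have hZ3 : 8 * b ^ 2 * Z ^ 3 ≤ N := by
    calc 8 * b ^ 2 * Z ^ 3 = (8 * b ^ 2 * G ^ 3) * K ^ 3 := by rw [hZ]; ring
      _ ≤ K * K ^ 3 := Nat.mul_le_mul_right _ hK2
      _ = K ^ 4 := by ring
      _ ≤ N := hKN
  have hone : ∀ j ∈ range J, (N : ℝ) / (8 * b ^ 2 * G * D) * (1 / ((j : ℝ) + 1)) ≤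
      ((Q j).card : ℝ) * Real.log N := by
    intro j hj
    rw [Finset.mem_range] at hj
    have hmR : (0 : ℝ) < m j := by exact_mod_cast hm0 j
    have hyK : K ≤ N / m j := by
      rw [Nat.le_div_iff_mul_le (hm0 j)]
      calc K * m j ≤ K * (G * K) := Nat.mul_le_mul_left K (by rw [← hZ]; exact hmZ j hj)
        _ ≤ K * (K * K) := Nat.mul_le_mul_left K (Nat.mul_le_mul_right K hK4)
        _ = K ^ 3 * 1 := by ring
        _ ≤ K ^ 3 * K := Nat.mul_le_mul_left _ (by omega)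
        _ = K ^ 4 := by ring
        _ ≤ N := hKN
    have h1 := hy0 (N / m j) (hK1.trans hyK) (c j) (hc1 j)
    have h2 := card_lower (b ^ 2) (c j) (N / m j) Z N (Nat.div_le_self _ _)
    have h3 : (N : ℝ) / (2 * m j) ≤ ((N / m j : ℕ) : ℝ) := by
      have h4 : N < m j * (N / m j + 1) := Nat.lt_mul_div_succ N (hm0 j)
      have h5 : N ≤ 2 * m j * (N / m j) := by
        have h6 : 1 ≤ N / m j := by omega
        nlinarith
      rw [div_le_iff₀ (by positivity)]
      have h7 : (N : ℝ) ≤ 2 * m j * ((N / m j : ℕ) : ℝ) := by exact_mod_cast h5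
      linarith
    have h4 : (N : ℝ) / (4 * b ^ 2 * m j) ≤ ((N / m j : ℕ) : ℝ) / (2 * ((b ^ 2 : ℕ) : ℝ)) := by
      push_cast
      rw [div_le_div_iff₀ (by positivity) (by positivity)]
      rw [div_le_iff₀ (by positivity)] at h3
      nlinarith [sq_nonneg (b : ℝ), mul_pos hbR hbR]
    have h5 : (Z : ℝ) ^ 2 ≤ N / (8 * b ^ 2 * m j) := by
      rw [le_div_iff₀ (by positivity)]
      have h6 : (m j : ℝ) ≤ Z := by exact_mod_cast hmZ j hj
      have h7 : (8 : ℝ) * b ^ 2 * Z ^ 3 ≤ N := by exact_mod_cast hZ3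
      calc (Z : ℝ) ^ 2 * ((8 : ℝ) * b ^ 2 * m j) ≤ (Z : ℝ) ^ 2 * ((8 : ℝ) * b ^ 2 * Z) := by gcongr
        _ = (8 : ℝ) * b ^ 2 * Z ^ 3 := by ring
        _ ≤ (N : ℝ) := h7
    have h6 : (N : ℝ) / (8 * b ^ 2 * m j) ≤ ((Q j).card : ℝ) * Real.log N := by
      have e : (N : ℝ) / (4 * b ^ 2 * m j) = 2 * (N / (8 * b ^ 2 * m j)) := by
        field_simp
        ring
      have h7 : ((Q j).card : ℝ) = (((Icc 1 (N / m j)).filter
        (fun q => q.Prime ∧ q ≡ c j [MOD b ^ 2] ∧ Z < q)).card : ℝ) := by rw [hQ]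
      rw [h7]
      push_cast at h1 h4 h2 ⊢
      linarith
    refine le_trans ?_ h6
    have h8 : (m j : ℝ) ≤ G * (D * (j + 1)) := by exact_mod_cast hmG j
    rw [mul_one_div, div_div]
    apply div_le_div_of_nonneg_left hNR.le (by positivity)
    calc (8 : ℝ) * b ^ 2 * m j ≤ (8 : ℝ) * b ^ 2 * (G * (D * (j + 1))) := by gcongr
      _ = (8 : ℝ) * b ^ 2 * G * D * (j + 1) := by ring
  -- sum
  have hharm : Real.log ((J : ℝ) + 1) ≤ ∑ j ∈ range J, 1 / ((j : ℝ) + 1) := by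
    have h1 := log_add_one_le_harmonic J
    have h2 : ((harmonic J : ℚ) : ℝ) = ∑ j ∈ range J, 1 / ((j : ℝ) + 1) := by
      unfold harmonic
      push_cast
      refine Finset.sum_congr rfl fun i _ => ?_
      rw [one_div]
    rw [h2] at h1
    push_cast at h1
    exact h1
  have hJ8 : N ≤ (J + 1) ^ 8 := by
    have h1 : K + 1 ≤ D * (J + 1) := by
      rw [hJ]
      exact Nat.lt_mul_div_succ K hD0
    have h2 : K + 1 ≤ (J + 1) ^ 2 := by
      have h3 : D ^ 2 * (K + 1) ≤ D ^ 2 * (J + 1) ^ 2 := by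
        calc D ^ 2 * (K + 1) ≤ (K + 1) * (K + 1) := Nat.mul_le_mul_right _ (by omega)
          _ ≤ (D * (J + 1)) * (D * (J + 1)) := Nat.mul_le_mul h1 h1
          _ = D ^ 2 * (J + 1) ^ 2 := by ring
      exact Nat.le_of_mul_le_mul_left h3 (by positivity)
    calc N ≤ (K + 1) ^ 4 := hNK.le
      _ ≤ ((J + 1) ^ 2) ^ 4 := Nat.pow_le_pow_left h2 4
      _ = (J + 1) ^ 8 := by ring
  have hlogJ : Real.log N ≤ 8 * Real.log ((J : ℝ) + 1) := by
    have h1 : (N : ℝ) ≤ ((J : ℝ) + 1) ^ 8 := by exact_mod_cast hJ8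
    calc Real.log N ≤ Real.log (((J : ℝ) + 1) ^ 8) := Real.log_le_log hNR h1
      _ = 8 * Real.log ((J : ℝ) + 1) := by rw [Real.log_pow]; norm_num
  have hsum : (N : ℝ) / (8 * b ^ 2 * G * D) * (Real.log N / 8) ≤
      (((Icc 1 N).filter (fun n => M * n < wf n ∧ M * wf n < wf (wf n))).card : ℝ) *
        Real.log N := by
    calc (N : ℝ) / (8 * b ^ 2 * G * D) * (Real.log N / 8)
        ≤ (N : ℝ) / (8 * b ^ 2 * G * D) * ∑ j ∈ range J, 1 / ((j : ℝ) + 1) := by
          apply mul_le_mul_of_nonneg_left _ (by positivity)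
          linarith
      _ = ∑ j ∈ range J, (N : ℝ) / (8 * b ^ 2 * G * D) * (1 / ((j : ℝ) + 1)) := by
          rw [Finset.mul_sum]
      _ ≤ ∑ j ∈ range J, ((Q j).card : ℝ) * Real.log N := Finset.sum_le_sum hone
      _ = ((∑ j ∈ range J, (Q j).card : ℕ) : ℝ) * Real.log N := by
          push_cast
          rw [Finset.sum_mul]
      _ ≤ _ := by
          apply mul_le_mul_of_nonneg_right _ hlogN.le
          exact_mod_cast hinj
  have hfin : (1 / (64 * b ^ 2 * G * D : ℝ) * N) * Real.log N ≤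
      (((Icc 1 N).filter (fun n => M * n < wf n ∧ M * wf n < wf (wf n))).card : ℝ) *
        Real.log N := by
    refine le_trans (le_of_eq ?_) hsum
    field_simp
    ring
  exact le_of_mul_le_mul_right hfin hlogN

end Pool.Agent.H52.WG
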